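import Pool.Agent.Work.MP_2738db_nt_T.Interface
import Pool.Agent.Work.MP_2738db_nt_W.TwoLog2

set_option autoImplicit false

/-! Block EXP: the exponents are bounded by a power of `log N`. -/

namespace Pool.Agent.Work.MP_2738db_nt_T_helper42

open Real

/-- LTE for `2`. -/
theorem lte {u w : ℤ} {g v : ℕ} (h4 : 4 ∣ u - w) (hu : ¬ 2 ∣ u) (hg : 1 ≤ g)
    (h : (2 : ℤ) ^ v ∣ u ^ g - w ^ g) : ∃ v' : ℕ, v ≤ v' + Nat.log 2 g ∧ (2 : ℤ) ^ v' ∣ u - w := by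
  have hfin : FiniteMultiplicity 2 g := Nat.finiteMultiplicity_iff.mpr ⟨by norm_num, by omega⟩
  obtain ⟨k, hk⟩ : ∃ k : ℕ, emultiplicity 2 g = k := by
    obtain ⟨k, hk⟩ := ENat.ne_top_iff_exists.mp (finiteMultiplicity_iff_emultiplicity_ne_top.mp hfin)
    exact ⟨k, hk.symm⟩
  have hk' : emultiplicity (2 : ℤ) (g : ℤ) = k := by
    rw [← hk]
    exact_mod_cast Int.natCast_emultiplicity 2 g
  have hkg : 2 ^ k ∣ g := pow_dvd_iff_le_emultiplicity.mpr (le_of_eq hk.symm)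
  have hklog : k ≤ Nat.log 2 g := Nat.le_log_of_pow_le (by norm_num) (Nat.le_of_dvd (by omega) hkg)
  have h1 := pow_dvd_iff_le_emultiplicity.mp h
  rw [Int.two_pow_sub_pow' g h4 hu, hk'] at h1
  refine ⟨v - k, by omega, pow_dvd_iff_le_emultiplicity.mpr ?_⟩
  have : ((v - k : ℕ) : ℕ∞) = (v : ℕ∞) - (k : ℕ∞) := by push_cast; rfl
  rw [this]
  exact tsub_le_iff_right.mpr h1

theorem odd_sq_pow {x : ℕ} (hx : Odd x) (s : ℕ) : (4 : ℤ) ∣ ((x : ℤ) ^ 2) ^ s - 1 := by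
  have h : (x : ℤ) ^ 2 % 4 = 1 := Int.sq_mod_four_eq_one_of_odd (by exact_mod_cast hx)
  have h2 : (4 : ℤ) ∣ (x : ℤ) ^ 2 - 1 := by omega
  have := sub_dvd_pow_sub_pow ((x : ℤ) ^ 2) 1 s
  rw [one_pow] at this
  exact h2.trans this

/-- coprime two-log bound with the trivial bound for small `ℓ`. -/
theorem core {X Y ℓ k₀ v : ℕ} {h lam : ℝ} (hh : 1 ≤ h) (hX0 : 1 ≤ X) (hY0 : 2 ≤ Y)
    (hXo : Odd X) (hYo : Odd Y) (hX : log X ≤ 2 * h) (hY : log Y ≤ 2 * h)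
    (hℓ : 1 ≤ ℓ) (hk : k₀ ≤ ℓ) (hcop : Nat.Coprime ℓ k₀) (hlam : 1 + log ℓ ≤ lam)
    (hne : (X : ℤ) ^ ℓ ≠ (Y : ℤ) ^ k₀) (hdv : (2 : ℤ) ^ v ∣ (X : ℤ) ^ ℓ - (Y : ℤ) ^ k₀) :
    (v : ℝ) ≤ 2 * 10 ^ 8 * h ^ 2 * lam ^ 2 := by
  have hℓ1 : (1 : ℝ) ≤ ℓ := by exact_mod_cast hℓ
  have hl0 : 0 ≤ log ℓ := log_nonneg hℓ1
  have hlam1 : 1 ≤ lam := by linarith
  by_cases hbig : 6200 * (2 * h) * (1 + log ℓ) ≤ ℓ
  · have h2X : ((2 : ℕ) : ℤ) ∣ (X : ℤ) - 1 := by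
      obtain ⟨r, hr⟩ := hXo
      exact ⟨r, by rw [hr]; push_cast; ring⟩
    have h2Y : ((2 : ℕ) : ℤ) ∣ (Y : ℤ) - 1 := by
      obtain ⟨r, hr⟩ := hYo
      exact ⟨r, by rw [hr]; push_cast; ring⟩
    have := MP_2738db_nt_W.two_log Nat.prime_two hX0 hY0 hℓ hcop h2X h2Y (2 * h) (2 * h) (by linarith)
      (by linarith) hX hY (by
        have : (k₀ : ℝ) ≤ ℓ := by exact_mod_cast hk
        nlinarith) hbig hdv
    calc (v : ℝ) ≤ 4 * 10 ^ 7 * (2 * h) * (2 * h) * (1 + log ℓ) ^ 2 := this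
      _ ≤ 4 * 10 ^ 7 * (2 * h) * (2 * h) * lam ^ 2 := by gcongr
      _ ≤ 2 * 10 ^ 8 * h ^ 2 * lam ^ 2 := by
        have : 0 ≤ h ^ 2 * lam ^ 2 := by positivity
        nlinarith
  · rw [not_le] at hbig
    have hd0 : (X : ℤ) ^ ℓ - (Y : ℤ) ^ k₀ ≠ 0 := sub_ne_zero.mpr hne
    have h1 : (2 : ℤ) ^ v ≤ |(X : ℤ) ^ ℓ - (Y : ℤ) ^ k₀| :=
      Int.le_of_dvd (abs_pos.mpr hd0) ((dvd_abs _ _).mpr hdv)
    have hXp : (0 : ℤ) < (X : ℤ) ^ ℓ := by positivity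
    have hYp : (0 : ℤ) < (Y : ℤ) ^ k₀ := by positivity
    have h2 : |(X : ℤ) ^ ℓ - (Y : ℤ) ^ k₀| ≤ max ((X : ℤ) ^ ℓ) ((Y : ℤ) ^ k₀) := by
      rw [abs_le]
      constructor
      · have := le_max_right ((X : ℤ) ^ ℓ) ((Y : ℤ) ^ k₀)
        linarith
      · have := le_max_left ((X : ℤ) ^ ℓ) ((Y : ℤ) ^ k₀)
        linarith
    have h3 : (2 : ℝ) ^ v ≤ max ((X : ℝ) ^ ℓ) ((Y : ℝ) ^ k₀) := by
      have := h1.trans h2
      exact_mod_cast this
    have h4 : max ((X : ℝ) ^ ℓ) ((Y : ℝ) ^ k₀) ≤ exp (2 * h * ℓ) := by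
      apply max_le
      · calc (X : ℝ) ^ ℓ = exp (log X * ℓ) := by
              rw [mul_comm, exp_nat_mul, exp_log (by positivity)]
          _ ≤ exp (2 * h * ℓ) := by gcongr
      · have hY1 : 0 ≤ log (Y : ℝ) := log_nonneg (by exact_mod_cast (by omega : 1 ≤ Y))
        calc (Y : ℝ) ^ k₀ = exp (log Y * k₀) := by
              rw [mul_comm, exp_nat_mul, exp_log (by positivity)]
          _ ≤ exp (2 * h * ℓ) := by gcongr
    have h5 : (v : ℝ) * log 2 ≤ 2 * h * ℓ := by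
      have := log_le_log (by positivity) (h3.trans h4)
      rwa [log_pow, log_exp] at this
    have h6 : (0.69 : ℝ) ≤ log 2 := by linarith [log_two_gt_d9]
    have h7 : (v : ℝ) * 0.69 ≤ 2 * h * ℓ := by
      have : (v : ℝ) * 0.69 ≤ v * log 2 := by gcongr
      linarith
    have h8 : 2 * h * ℓ ≤ 2 * h * (12400 * h * lam) := by
      gcongr
      have : 6200 * (2 * h) * (1 + log ℓ) ≤ 12400 * h * lam := by
        have : (1 + log ℓ) * h ≤ lam * h := by gcongr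
        nlinarith
      linarith
    have h9 : h ^ 2 * lam ≤ h ^ 2 * lam ^ 2 := by
      have : lam ≤ lam ^ 2 := by nlinarith
      gcongr
    have h10 : 0 ≤ h ^ 2 * lam ^ 2 := by positivity
    nlinarith


/-- basic facts on `log` used throughout -/
theorem log2_lo : (0.69 : ℝ) ≤ log 2 := by linarith [log_two_gt_d9]

theorem one_le_log {N : ℕ} (hN : 3 ≤ N) : 1 ≤ log (N : ℝ) := by
  rw [le_log_iff_exp_le (by positivity)]
  have : (3 : ℝ) ≤ N := by exact_mod_cast hN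
  linarith [exp_one_lt_d9]

theorem natlog_le {g E : ℕ} {lam : ℝ} (hg : 1 ≤ g) (hgE : g ≤ E + 1)
    (hlam : 1 + log (E + 1 : ℝ) ≤ lam) : (Nat.log 2 g : ℝ) ≤ 2 * lam := by
  have h1 : 2 ^ Nat.log 2 g ≤ g := Nat.pow_log_le_self 2 (by omega)
  have h2 : (2 : ℝ) ^ Nat.log 2 g ≤ E + 1 := by exact_mod_cast h1.trans hgE
  have h3 := log_le_log (by positivity) h2
  rw [log_pow] at h3
  have h4 := log2_lo
  have h5 : (0 : ℝ) ≤ (Nat.log 2 g : ℝ) := by positivity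
  have h6 : (Nat.log 2 g : ℝ) * 0.69 ≤ Nat.log 2 g * log 2 := by gcongr
  have h7 : 0 ≤ log (E + 1 : ℝ) := log_nonneg (by have : (0:ℝ) ≤ E := by positivity
                                                  linarith)
  nlinarith

/-- Lemma W -/
theorem lemW {N x y s t E v : ℕ} {lam : ℝ} (hN : 3 ≤ N) (hx : Odd x) (hy : Odd y)
    (hxy : Nat.Coprime x y) (hx1 : 1 ≤ x) (hy1 : 1 ≤ y) (hxN : x ≤ N) (hyN : y ≤ N)
    (hne : ¬ (x = 1 ∧ y = 1)) (hs : 1 ≤ s) (ht : 1 ≤ t) (hsE : s ≤ E) (htE : t ≤ E)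
    (hlam : 1 + log (E + 1 : ℝ) ≤ lam)
    (hdv : (2 : ℤ) ^ v ∣ (x : ℤ) ^ (2 * s) - (y : ℤ) ^ (2 * t)) :
    (v : ℝ) ≤ 3 * 10 ^ 8 * (log N) ^ 2 * lam ^ 2 := by
  have hh := one_le_log hN
  set h : ℝ := log (N : ℝ) with hhdef
  have hE0 : (0 : ℝ) ≤ E := by positivity
  have hlE : 0 ≤ log (E + 1 : ℝ) := log_nonneg (by linarith)
  have hlam1 : 1 ≤ lam := by linarith
  have hlogx : ∀ z : ℕ, 1 ≤ z → z ≤ N → log ((z ^ 2 : ℕ) : ℝ) ≤ 2 * h := by
    intro z hz1 hzN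
    have : log (z : ℝ) ≤ h := log_le_log (by exact_mod_cast hz1) (by exact_mod_cast hzN)
    push_cast
    rw [log_pow]
    push_cast
    linarith
  have hlogE : ∀ l : ℕ, 1 ≤ l → l ≤ E + 1 → 1 + log (l : ℝ) ≤ lam := by
    intro l hl hlE
    have h1 : log (l : ℝ) ≤ log (E + 1 : ℝ) :=
      log_le_log (by exact_mod_cast hl) (by exact_mod_cast hlE)
    linarith
  have hfin : ∀ v' : ℕ, (v' : ℝ) ≤ 2 * 10 ^ 8 * h ^ 2 * lam ^ 2 → ∀ w : ℝ, w ≤ v' + 2 * lam →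
      w ≤ 3 * 10 ^ 8 * h ^ 2 * lam ^ 2 := by
    intro v' hv' w hw
    have h1 : lam ≤ lam ^ 2 := by nlinarith
    have h2 : lam ^ 2 ≤ h ^ 2 * lam ^ 2 := by
      have : 1 ≤ h ^ 2 := by nlinarith
      nlinarith [sq_nonneg lam]
    nlinarith
  have h0 : ∀ (z r : ℕ), Odd z → 3 ≤ z → z ≤ N → 1 ≤ r → r ≤ E →
      (2 : ℤ) ^ v ∣ (z : ℤ) ^ (2 * r) - 1 → (v : ℝ) ≤ 3 * 10 ^ 8 * h ^ 2 * lam ^ 2 := by
    intro z r hz hz3 hzN hr hrE hd
    have hc := core (X := 1) (Y := z ^ 2) (ℓ := r + 1) (k₀ := r) (v := v) (h := h) (lam := lam) hh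
      le_rfl (by nlinarith) odd_one hz.pow (by simp; linarith) (hlogx z (by omega) hzN) (by omega)
      (by omega) (by simp) (by
        have := hlogE (r + 1) (by omega) (by omega)
        push_cast at this ⊢
        exact this)
      (by
        push_cast
        rw [one_pow, ← pow_mul]
        intro hcon
        have h1 : (1 : ℤ) < (z : ℤ) ^ (2 * r) := by
          apply one_lt_pow₀
          · exact_mod_cast (by omega : 1 < z)
          · omega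
        omega)
      (by
        push_cast
        rw [one_pow, ← pow_mul]
        rw [← neg_sub]
        exact (dvd_neg).mpr hd)
    exact hfin v hc v (by linarith)
  by_cases hx' : x = 1
  · subst hx'
    have hy3 : 3 ≤ y := by
      have : y ≠ 1 := fun h => hne ⟨rfl, h⟩
      obtain ⟨r, hr⟩ := hy
      omega
    refine h0 y t hy hy3 hyN ht htE ?_
    rw [← neg_sub]
    refine dvd_neg.mpr ?_
    simpa using hdv
  by_cases hy' : y = 1
  · subst hy'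
    have hx3 : 3 ≤ x := by
      obtain ⟨r, hr⟩ := hx
      omega
    refine h0 x s hx hx3 hxN hs hsE ?_
    simpa using hdv
  have hx3 : 3 ≤ x := by
    obtain ⟨r, hr⟩ := hx
    omega
  have hy3 : 3 ≤ y := by
    obtain ⟨r, hr⟩ := hy
    omega
  obtain ⟨s', t', hcop', hs', ht'⟩ : ∃ s' t', Nat.Coprime s' t' ∧ s = Nat.gcd s t * s' ∧
      t = Nat.gcd s t * t' := by
    have hpos : 0 < Nat.gcd s t := Nat.gcd_pos_of_pos_left _ (by omega)
    refine ⟨s / Nat.gcd s t, t / Nat.gcd s t, Nat.coprime_div_gcd_div_gcd hpos, ?_, ?_⟩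
    · exact (Nat.mul_div_cancel' (Nat.gcd_dvd_left _ _)).symm
    · exact (Nat.mul_div_cancel' (Nat.gcd_dvd_right _ _)).symm
  set g := Nat.gcd s t with hg
  have hg1 : 1 ≤ g := Nat.gcd_pos_of_pos_left _ (by omega)
  have hgE : g ≤ E + 1 := (Nat.le_of_dvd (by omega) (Nat.gcd_dvd_left s t)).trans (by omega)
  have hs'1 : 1 ≤ s' := by
    rcases Nat.eq_zero_or_pos s' with h | h
    · rw [h, mul_zero] at hs'; omega
    · exact h
  have ht'1 : 1 ≤ t' := by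
    rcases Nat.eq_zero_or_pos t' with h | h
    · rw [h, mul_zero] at ht'; omega
    · exact h
  have hs'E : s' ≤ E := by
    have : s' ≤ g * s' := Nat.le_mul_of_pos_left _ (by omega)
    omega
  have ht'E : t' ≤ E := by
    have : t' ≤ g * t' := Nat.le_mul_of_pos_left _ (by omega)
    omega
  have e1 : (x : ℤ) ^ (2 * s) = (((x : ℤ) ^ 2) ^ s') ^ g := by
    rw [← pow_mul, ← pow_mul]
    congr 1
    rw [hs']
    ring
  have e2 : (y : ℤ) ^ (2 * t) = (((y : ℤ) ^ 2) ^ t') ^ g := by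
    rw [← pow_mul, ← pow_mul]
    congr 1
    rw [ht']
    ring
  rw [e1, e2] at hdv
  have h4 : (4 : ℤ) ∣ ((x : ℤ) ^ 2) ^ s' - ((y : ℤ) ^ 2) ^ t' := by
    have := dvd_sub (odd_sq_pow hx s') (odd_sq_pow hy t')
    simpa using this
  have hodd : ¬ (2 : ℤ) ∣ ((x : ℤ) ^ 2) ^ s' := by
    rw [← even_iff_two_dvd, Int.not_even_iff_odd]
    have : Odd (x : ℤ) := by exact_mod_cast hx
    exact this.pow.pow
  obtain ⟨v', hv', hdv'⟩ := lte h4 hodd hg1 hdv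
  have hnl := natlog_le hg1 hgE hlam
  have hv'' : (v : ℝ) ≤ v' + 2 * lam := by
    have : (v : ℝ) ≤ v' + Nat.log 2 g := by exact_mod_cast hv'
    linarith
  have hneq : ((x : ℤ) ^ 2) ^ s' ≠ ((y : ℤ) ^ 2) ^ t' := by
    intro hcon
    have hcon' : (x ^ 2) ^ s' = (y ^ 2) ^ t' := by exact_mod_cast hcon
    have hc : Nat.Coprime ((x ^ 2) ^ s') ((y ^ 2) ^ t') :=
      Nat.Coprime.pow _ _ (Nat.Coprime.pow _ _ hxy)
    rw [← hcon', Nat.coprime_self] at hc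
    have : 1 < (x ^ 2) ^ s' := by
      apply one_lt_pow₀ _ (by omega)
      exact one_lt_pow₀ (by omega) (by norm_num)
    omega
  have hx2 : 1 ≤ x ^ 2 := Nat.one_le_pow _ _ (by omega)
  have hy2 : 1 ≤ y ^ 2 := Nat.one_le_pow _ _ (by omega)
  have hx22 : 2 ≤ x ^ 2 := le_trans (by norm_num) (Nat.pow_le_pow_left hx3 2)
  have hy22 : 2 ≤ y ^ 2 := le_trans (by norm_num) (Nat.pow_le_pow_left hy3 2)
  rcases le_total t' s' with hle | hle
  · refine hfin v' ?_ v hv''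
    refine core (X := x ^ 2) (Y := y ^ 2) (ℓ := s') (k₀ := t') hh hx2 hy22
      hx.pow hy.pow (hlogx x hx1 hxN) (hlogx y hy1 hyN) hs'1 hle hcop'
      (hlogE s' hs'1 (by omega)) ?_ ?_
    · push_cast; exact hneq
    · push_cast; exact hdv'
  · refine hfin v' ?_ v hv''
    refine core (X := y ^ 2) (Y := x ^ 2) (ℓ := t') (k₀ := s') hh hy2 hx22
      hy.pow hx.pow (hlogx y hy1 hyN) (hlogx x hx1 hxN) ht'1 hle hcop'.symm
      (hlogE t' ht'1 (by omega)) ?_ ?_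
    · push_cast; exact hneq.symm
    · push_cast
      rw [← neg_sub]
      exact dvd_neg.mpr hdv'

theorem expo_le {N z r w q : ℕ} (hN : 3 ≤ N) (hz : 2 ≤ z) (hw : w ≤ N)
    (h : z ^ r ≤ w ^ q) : (r : ℝ) ≤ 2 * log N * q := by
  have hh := one_le_log hN
  have hz0 : (0 : ℝ) < z := by positivity
  have h1 : (z : ℝ) ^ r ≤ (w : ℝ) ^ q := by exact_mod_cast h
  have hw0 : 0 < (w : ℝ) ^ q := lt_of_lt_of_le (by positivity) h1
  have h2 := log_le_log (by positivity) h1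
  rw [log_pow, log_pow] at h2
  have h3 : (r : ℝ) * 0.69 ≤ r * log z := by
    have : log 2 ≤ log (z : ℝ) := log_le_log (by norm_num) (by exact_mod_cast hz)
    have := log2_lo
    gcongr
    linarith
  have h4 : (q : ℝ) * log w ≤ q * log N := by
    rcases Nat.eq_zero_or_pos w with h0 | h0
    · rw [h0]; simp; positivity
    · gcongr
  nlinarith [mul_nonneg (show (0:ℝ) ≤ q by positivity) (show (0:ℝ) ≤ log N by linarith)]

theorem caseC {N a b c m n k E : ℕ} {lam : ℝ} (hN : 3 ≤ N) (ha1 : 1 ≤ a) (haN : a ≤ N)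
    (hb1 : 1 ≤ b) (hbN : b ≤ N) (hc2 : 2 ≤ c) (hcN : c ≤ N) (hab : Nat.Coprime a b)
    (hm : 2 ≤ m) (hn : 2 ≤ n) (hk : 2 ≤ k) (ham : a = 1 → m = 2) (hbn : b = 1 → n = 2)
    (heq : a ^ m + b ^ n = c ^ k) (hmE : m ≤ E) (hnE : n ≤ E)
    (hlam : 1 + log (E + 1 : ℝ) ≤ lam) (hao : Odd a) (hbo : Odd b) (hce : Even c) :
    (m : ℝ) ≤ 2 * log N * (3 * 10 ^ 8 * (log N) ^ 2 * lam ^ 2) ∧
    (n : ℝ) ≤ 2 * log N * (3 * 10 ^ 8 * (log N) ^ 2 * lam ^ 2) ∧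
    (k : ℝ) ≤ 2 * log N * (3 * 10 ^ 8 * (log N) ^ 2 * lam ^ 2) := by
  have hh := one_le_log hN
  have hdv : (2 : ℤ) ^ k ∣ (a : ℤ) ^ (2 * m) - (b : ℤ) ^ (2 * n) := by
    have h1 : (2 : ℤ) ^ k ∣ (c : ℤ) ^ k := pow_dvd_pow_of_dvd (by exact_mod_cast hce.two_dvd) k
    have h2 : (a : ℤ) ^ m + (b : ℤ) ^ n = (c : ℤ) ^ k := by exact_mod_cast heq
    rw [← h2] at h1
    have h3 : (a : ℤ) ^ (2 * m) - (b : ℤ) ^ (2 * n) =
        ((a : ℤ) ^ m + (b : ℤ) ^ n) * ((a : ℤ) ^ m - (b : ℤ) ^ n) := by ring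
    rw [h3]
    exact h1.mul_right _
  have hne : ¬ (a = 1 ∧ b = 1) := by
    rintro ⟨rfl, rfl⟩
    rw [one_pow, one_pow] at heq
    have : c ^ 2 ≤ c ^ k := Nat.pow_le_pow_right (by omega) hk
    nlinarith
  have hK := lemW hN hao hbo hab ha1 hb1 haN hbN hne (by omega) (by omega) hmE hnE hlam hdv
  set K0 := 3 * 10 ^ 8 * (log N) ^ 2 * lam ^ 2 with hK0
  have hk2 : (2 : ℝ) ≤ k := by exact_mod_cast hk
  have hkk : 2 * log N * (k : ℝ) ≤ 2 * log N * K0 := by gcongr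
  have hk1 : (k : ℝ) ≤ 2 * log N * (k : ℝ) := by nlinarith
  refine ⟨?_, ?_, hk1.trans hkk⟩
  · rcases Nat.lt_or_ge a 2 with h | h
    · rw [ham (by omega)]
      push_cast
      linarith
    · exact (expo_le hN h hcN (by omega : a ^ m ≤ c ^ k)).trans hkk
  · rcases Nat.lt_or_ge b 2 with h | h
    · rw [hbn (by omega)]
      push_cast
      linarith
    · exact (expo_le hN h hcN (by omega : b ^ n ≤ c ^ k)).trans hkk

theorem pow_gap {u w g : ℕ} (hwu : w < u) (hg : 2 ≤ g) : u ^ g ≤ (u ^ g - w ^ g) ^ 2 := by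
  obtain ⟨v, rfl⟩ : ∃ v, u = v + 1 := ⟨u - 1, by omega⟩
  obtain ⟨e, rfl⟩ : ∃ e, g = e + 1 := ⟨g - 1, by omega⟩
  have h1 : w ^ (e + 1) ≤ v * (v + 1) ^ e := by
    calc w ^ (e + 1) ≤ v ^ (e + 1) := Nat.pow_le_pow_left (by omega) _
      _ = v * v ^ e := by ring
      _ ≤ v * (v + 1) ^ e := Nat.mul_le_mul_left _ (Nat.pow_le_pow_left (by omega) _)
  have h2 : (v + 1) ^ e ≤ (v + 1) ^ (e + 1) - w ^ (e + 1) := by
    have : (v + 1) ^ (e + 1) = v * (v + 1) ^ e + (v + 1) ^ e := by ring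
    omega
  calc (v + 1) ^ (e + 1) ≤ (v + 1) ^ (2 * e) := Nat.pow_le_pow_right (by omega) (by omega)
    _ = ((v + 1) ^ e) ^ 2 := by ring
    _ ≤ _ := Nat.pow_le_pow_left h2 2

theorem fin_step {x h lam C : ℝ} (hq1 : 1 ≤ h ^ 4 * lam ^ 4) (hC : 1 ≤ C)
    (hx : x * 0.69 ≤ 9 * 10 ^ 8 * (h ^ 4 * lam ^ 4) + 2 * (C * (h ^ 4 * lam ^ 4))) :
    x ≤ (2 * 10 ^ 9 + 4 * C) * h ^ 4 * lam ^ 4 := by
  have e : (2 * 10 ^ 9 + 4 * C) * h ^ 4 * lam ^ 4 =
      2 * 10 ^ 9 * (h ^ 4 * lam ^ 4) + 4 * (C * (h ^ 4 * lam ^ 4)) := by ring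
  rw [e]
  have h0 : 0 ≤ C * (h ^ 4 * lam ^ 4) := by positivity
  generalize C * (h ^ 4 * lam ^ 4) = r at *
  generalize h ^ 4 * lam ^ 4 = q at *
  linarith

theorem fin_step' {x h lam C : ℝ} (hq1 : 1 ≤ h ^ 4 * lam ^ 4) (hC : 1 ≤ C)
    (hx : x ≤ 10 ^ 9 * (h ^ 4 * lam ^ 4)) :
    x ≤ (2 * 10 ^ 9 + 4 * C) * h ^ 4 * lam ^ 4 := by
  have e : (2 * 10 ^ 9 + 4 * C) * h ^ 4 * lam ^ 4 =
      2 * 10 ^ 9 * (h ^ 4 * lam ^ 4) + 4 * (C * (h ^ 4 * lam ^ 4)) := by ring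
  rw [e]
  have h0 : 0 ≤ C * (h ^ 4 * lam ^ 4) := by positivity
  generalize C * (h ^ 4 * lam ^ 4) = r at *
  generalize h ^ 4 * lam ^ 4 = q at *
  linarith

theorem caseA {C : ℝ} (hC1 : 1 ≤ C)
    (hC : ∀ (X Y k₀ ℓ : ℕ) (A B : ℝ), 2 ≤ X → 2 ≤ Y → 1 ≤ k₀ → 1 ≤ ℓ →
    Nat.Coprime ℓ k₀ → 1 ≤ A → 1 ≤ B → Real.log X ≤ A → Real.log Y ≤ B → (k₀ : ℝ) ≤ A * ℓ →
    30000 * B * (1 + Real.log ℓ) ≤ ℓ →
    Real.exp (-(C * (A * B) ^ 2 * (1 + Real.log ℓ) ^ 4)) ≤ |ℓ * Real.log X - k₀ * Real.log Y|)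
    {N a b c m n k E : ℕ} {lam : ℝ} (hN : 3 ≤ N) (ha2 : 2 ≤ a) (haN : a ≤ N)
    (hb1 : 1 ≤ b) (hbN : b ≤ N) (hc2 : 2 ≤ c) (hcN : c ≤ N) (hbc : Nat.Coprime b c)
    (hm : 2 ≤ m) (hn : 2 ≤ n) (hk : 2 ≤ k) (hbn : b = 1 → n = 2)
    (heq : a ^ m + b ^ n = c ^ k) (hnE : n ≤ E) (hkE : k ≤ E)
    (hlam : 1 + log (E + 1 : ℝ) ≤ lam) (hae : Even a) (hbo : Odd b) (hco : Odd c) :
    (m : ℝ) ≤ (2 * 10 ^ 9 + 4 * C) * (log N) ^ 4 * lam ^ 4 ∧
    (n : ℝ) ≤ (2 * 10 ^ 9 + 4 * C) * (log N) ^ 4 * lam ^ 4 ∧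
    (k : ℝ) ≤ (2 * 10 ^ 9 + 4 * C) * (log N) ^ 4 * lam ^ 4 := by
  have hh := one_le_log hN
  have hE0 : (0 : ℝ) ≤ E := by positivity
  have hlE : 0 ≤ log (E + 1 : ℝ) := log_nonneg (by linarith)
  have hlam1 : 1 ≤ lam := by linarith
  have hdv : (2 : ℤ) ^ m ∣ (c : ℤ) ^ (2 * k) - (b : ℤ) ^ (2 * n) := by
    have h1 : (2 : ℤ) ^ m ∣ (a : ℤ) ^ m := pow_dvd_pow_of_dvd (by exact_mod_cast hae.two_dvd) m
    have h2 : (a : ℤ) ^ m = (c : ℤ) ^ k - (b : ℤ) ^ n := by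
      have : (a : ℤ) ^ m + (b : ℤ) ^ n = (c : ℤ) ^ k := by exact_mod_cast heq
      linarith
    rw [h2] at h1
    have h3 : (c : ℤ) ^ (2 * k) - (b : ℤ) ^ (2 * n) =
        ((c : ℤ) ^ k - (b : ℤ) ^ n) * ((c : ℤ) ^ k + (b : ℤ) ^ n) := by ring
    rw [h3]
    exact h1.mul_right _
  have hK := lemW hN hco hbo hbc.symm (by omega) hb1 hcN hbN (by omega) (by omega) (by omega)
    hkE hnE hlam hdv
  set h : ℝ := log (N : ℝ) with hhdef
  have hQ : 1 ≤ h ^ 4 * lam ^ 4 := by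
    have h1 : 1 ≤ h ^ 4 := one_le_pow₀ hh
    have h2 : 1 ≤ lam ^ 4 := one_le_pow₀ hlam1
    nlinarith
  have hmh : (m : ℝ) * h ≤ 3 * 10 ^ 8 * (h ^ 4 * lam ^ 4) := by
    have h1 : h ^ 3 ≤ h ^ 4 := pow_le_pow_right₀ hh (by norm_num)
    have h2 : lam ^ 2 ≤ lam ^ 4 := pow_le_pow_right₀ hlam1 (by norm_num)
    calc (m : ℝ) * h ≤ (3 * 10 ^ 8 * h ^ 2 * lam ^ 2) * h := by gcongr
      _ = 3 * 10 ^ 8 * (h ^ 3 * lam ^ 2) := by ring
      _ ≤ 3 * 10 ^ 8 * (h ^ 4 * lam ^ 4) := by gcongr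
  have hm0 : (0 : ℝ) ≤ m := by positivity
  have hmm : (m : ℝ) ≤ m * h := by nlinarith
  have hCQ : 0 ≤ C * (h ^ 4 * lam ^ 4) := by positivity
  have hmfin : (m : ℝ) ≤ (2 * 10 ^ 9 + 4 * C) * h ^ 4 * lam ^ 4 := by
    refine fin_step' hQ hC1 ?_
    linarith
  -- if `c ^ k ≤ a ^ (2 m)` we are done
  have hsq : c ^ k ≤ a ^ (2 * m) → b = 1 ∨ 2 ≤ b → (m : ℝ) ≤ (2 * 10 ^ 9 + 4 * C) * h ^ 4 * lam ^ 4 ∧
    (n : ℝ) ≤ (2 * 10 ^ 9 + 4 * C) * h ^ 4 * lam ^ 4 ∧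
    (k : ℝ) ≤ (2 * 10 ^ 9 + 4 * C) * h ^ 4 * lam ^ 4 := by
    intro hca hb
    refine ⟨hmfin, ?_, ?_⟩
    · rcases hb with hb | hb
      · rw [hbn hb]
        refine fin_step' hQ hC1 ?_
        push_cast
        linarith
      · have h1 := expo_le hN hb haN (((Nat.le_add_left _ _).trans heq.le).trans hca)
        push_cast at h1
        rw [← hhdef] at h1
        have h1' : (n : ℝ) ≤ 4 * (m * h) := by linarith
        clear h1
        refine fin_step hQ hC1 ?_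
        have : (0 : ℝ) ≤ n := by positivity
        linarith
    · have h1 := expo_le hN hc2 haN hca
      push_cast at h1
      rw [← hhdef] at h1
      have h1' : (k : ℝ) ≤ 4 * (m * h) := by linarith
      clear h1
      refine fin_step hQ hC1 ?_
      have : (0 : ℝ) ≤ k := by positivity
      linarith
  rcases Nat.lt_or_ge b 2 with hb | hb
  · have hb' : b = 1 := by omega
    refine hsq ?_ (Or.inl hb')
    rw [← heq, hb', one_pow]
    have h1 : 2 ≤ a ^ m := by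
      calc 2 ≤ a := ha2
        _ = a ^ 1 := (pow_one a).symm
        _ ≤ a ^ m := Nat.pow_le_pow_right (by omega) (by omega)
    have h2 : a ^ (2 * m) = a ^ m * a ^ m := by ring
    rw [h2]
    nlinarith
  by_cases hg : 2 ≤ Nat.gcd k n
  · refine hsq ?_ (Or.inr hb)
    set g := Nat.gcd k n with hgdef
    obtain ⟨k', hk'⟩ : g ∣ k := Nat.gcd_dvd_left _ _
    obtain ⟨n', hn'⟩ : g ∣ n := Nat.gcd_dvd_right _ _
    have e1 : c ^ k = (c ^ k') ^ g := by rw [hk', mul_comm, pow_mul]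
    have e2 : b ^ n = (b ^ n') ^ g := by rw [hn', mul_comm, pow_mul]
    have hlt : b ^ n < c ^ k := by
      have : 0 < a ^ m := by positivity
      omega
    rw [e1, e2] at hlt
    have hlt' : b ^ n' < c ^ k' := lt_of_pow_lt_pow_left' g hlt
    have h1 := pow_gap hlt' hg
    rw [← e1, ← e2] at h1
    have h2 : c ^ k - b ^ n = a ^ m := by omega
    rw [h2] at h1
    calc c ^ k ≤ (a ^ m) ^ 2 := h1
      _ = a ^ (2 * m) := by ring
  -- coprime exponents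
  have hg1 : Nat.Coprime k n := by
    have : 0 < Nat.gcd k n := Nat.gcd_pos_of_pos_left _ (by omega)
    have : Nat.gcd k n = 1 := by omega
    exact this
  have haR : (0 : ℝ) < (a : ℝ) ^ m := by positivity
  have hbR : (0 : ℝ) < (b : ℝ) ^ n := by positivity
  have hcR : (0 : ℝ) < (c : ℝ) ^ k := by positivity
  have heqR : (a : ℝ) ^ m + (b : ℝ) ^ n = (c : ℝ) ^ k := by exact_mod_cast heq
  have hLam : (k : ℝ) * log c - n * log b ≤ (a : ℝ) ^ m / (b : ℝ) ^ n := by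
    rw [← log_pow, ← log_pow, ← log_div hcR.ne' hbR.ne']
    have := log_le_sub_one_of_pos (div_pos hcR hbR)
    have e : (c : ℝ) ^ k / (b : ℝ) ^ n - 1 = (a : ℝ) ^ m / (b : ℝ) ^ n := by
      rw [← heqR]; field_simp; ring
    linarith
  have hLam0 : 0 < (k : ℝ) * log c - n * log b := by
    rw [← log_pow, ← log_pow]
    have := log_lt_log hbR (by linarith : (b : ℝ) ^ n < (c : ℝ) ^ k)
    linarith
  have hloga : log (a : ℝ) ≤ h := log_le_log (by positivity) (by exact_mod_cast haN)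
  have hlogb : log (b : ℝ) ≤ h := log_le_log (by positivity) (by exact_mod_cast hbN)
  have hlogc : log (c : ℝ) ≤ h := log_le_log (by positivity) (by exact_mod_cast hcN)
  have hlogb2 : (0.69 : ℝ) ≤ log b := log2_lo.trans (log_le_log (by norm_num) (by exact_mod_cast hb))
  have hlogc2 : (0.69 : ℝ) ≤ log c := log2_lo.trans (log_le_log (by norm_num) (by exact_mod_cast hc2))
  have hlogE : ∀ l : ℕ, 1 ≤ l → l ≤ E → 1 + log (l : ℝ) ≤ lam := by
    intro l hl hlE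
    have h1 : log (l : ℝ) ≤ log (E + 1 : ℝ) :=
      log_le_log (by exact_mod_cast hl) (by exact_mod_cast (by omega : l ≤ E + 1))
    linarith
  have hsmall : ∀ l : ℕ, 1 ≤ l → l ≤ E → ¬ 30000 * h * (1 + log (l : ℝ)) ≤ l →
      (l : ℝ) ≤ (2 * 10 ^ 9 + 4 * C) * h ^ 4 * lam ^ 4 := by
    intro l hl hlE hn
    rw [not_le] at hn
    have h1 := hlogE l hl hlE
    have h2 : 30000 * h * (1 + log (l : ℝ)) ≤ 30000 * h * lam := by gcongr
    have h3 : h * lam ≤ h ^ 4 * lam ^ 4 := by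
      have e1 : h ≤ h ^ 4 := le_self_pow₀ hh (by norm_num)
      have e2 : lam ≤ lam ^ 4 := le_self_pow₀ hlam1 (by norm_num)
      gcongr
    refine fin_step' hQ hC1 ?_
    have h4 : 30000 * h * lam = 30000 * (h * lam) := by ring
    rw [h4] at h2
    linarith
  -- the key consequence of `Stmt_Arch`
  have hkey : ∀ l : ℕ, 1 ≤ l → l ≤ E →
      exp (-(C * (h * h) ^ 2 * (1 + log (l : ℝ)) ^ 4)) ≤ (k : ℝ) * log c - n * log b →
      (m : ℝ) ≤ (2 * 10 ^ 9 + 4 * C) * h ^ 4 * lam ^ 4 ∧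
      (n : ℝ) ≤ (2 * 10 ^ 9 + 4 * C) * h ^ 4 * lam ^ 4 ∧
      (k : ℝ) ≤ (2 * 10 ^ 9 + 4 * C) * h ^ 4 * lam ^ 4 := by
    intro l hl hlE hex
    have h1 := hlogE l hl hlE
    have hl0 : 0 ≤ log (l : ℝ) := log_nonneg (by exact_mod_cast hl)
    have h2 : C * (h * h) ^ 2 * (1 + log (l : ℝ)) ^ 4 ≤ C * (h ^ 4 * lam ^ 4) := by
      have : (1 + log (l : ℝ)) ^ 4 ≤ lam ^ 4 := by gcongr
      calc C * (h * h) ^ 2 * (1 + log (l : ℝ)) ^ 4 ≤ C * (h * h) ^ 2 * lam ^ 4 := by gcongr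
        _ = C * (h ^ 4 * lam ^ 4) := by ring
    have h3 : exp (-(C * (h ^ 4 * lam ^ 4))) ≤ (a : ℝ) ^ m / (b : ℝ) ^ n := by
      refine le_trans (exp_le_exp.mpr ?_) (hex.trans hLam)
      linarith
    have h4 := log_le_log (exp_pos _) h3
    rw [log_exp, log_div haR.ne' hbR.ne', log_pow, log_pow] at h4
    have h5 : (m : ℝ) * log a ≤ m * h := by gcongr
    have h6 : (n : ℝ) * log b ≤ m * h + C * (h ^ 4 * lam ^ 4) := by linarith
    have h7 : (n : ℝ) * 0.69 ≤ n * log b := by gcongr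
    have h8 : (k : ℝ) * log c ≤ 1 + m * h + n * log b := by
      rw [← log_pow, ← heqR]
      have e1 : (a : ℝ) ^ m + (b : ℝ) ^ n ≤ 2 * ((a : ℝ) ^ m * (b : ℝ) ^ n) := by
        have f1 : (1 : ℝ) ≤ (a : ℝ) ^ m := one_le_pow₀ (by exact_mod_cast (by omega : 1 ≤ a))
        have f2 : (1 : ℝ) ≤ (b : ℝ) ^ n := one_le_pow₀ (by exact_mod_cast (by omega : 1 ≤ b))
        nlinarith
      have e2 := log_le_log (by positivity) e1
      rw [log_mul (by norm_num) (by positivity), log_mul haR.ne' hbR.ne', log_pow, log_pow] at e2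
      have e3 : log 2 ≤ 1 := by linarith [log_two_lt_d9]
      linarith
    have h9 : (k : ℝ) * 0.69 ≤ k * log c := by gcongr
    refine ⟨hmfin, ?_, ?_⟩
    · refine fin_step hQ hC1 ?_
      linarith
    · refine fin_step hQ hC1 ?_
      linarith
  have hkn_le : ∀ l : ℕ, (l : ℝ) ≤ (2 * 10 ^ 9 + 4 * C) * h ^ 4 * lam ^ 4 → k ≤ l → n ≤ l →
      (m : ℝ) ≤ (2 * 10 ^ 9 + 4 * C) * h ^ 4 * lam ^ 4 ∧
      (n : ℝ) ≤ (2 * 10 ^ 9 + 4 * C) * h ^ 4 * lam ^ 4 ∧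
      (k : ℝ) ≤ (2 * 10 ^ 9 + 4 * C) * h ^ 4 * lam ^ 4 := by
    intro l hl hkl hnl
    have h1 : (k : ℝ) ≤ l := by exact_mod_cast hkl
    have h2 : (n : ℝ) ≤ l := by exact_mod_cast hnl
    exact ⟨hmfin, by linarith, by linarith⟩
  rcases le_total k n with hkn | hkn
  · by_cases hbig : 30000 * h * (1 + log (n : ℝ)) ≤ n
    · have hA := hC b c k n h h hb hc2 (by omega) (by omega) hg1.symm hh hh hlogb hlogc
        (by
          have : (k : ℝ) ≤ n := by exact_mod_cast hkn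
          have : (0 : ℝ) ≤ n := by positivity
          nlinarith) hbig
      refine hkey n (by omega) hnE (hA.trans ?_)
      rw [abs_sub_comm, abs_of_pos hLam0]
    · exact hkn_le n (hsmall n (by omega) hnE hbig) hkn le_rfl
  · by_cases hbig : 30000 * h * (1 + log (k : ℝ)) ≤ k
    · have hA := hC c b n k h h hc2 hb (by omega) (by omega) hg1 hh hh hlogc hlogb
        (by
          have : (n : ℝ) ≤ k := by exact_mod_cast hkn
          have : (0 : ℝ) ≤ k := by positivity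
          nlinarith) hbig
      refine hkey k (by omega) hkE (hA.trans ?_)
      rw [abs_of_pos hLam0]
    · exact hkn_le k (hsmall k (by omega) hkE hbig) le_rfl hkn

/-- solving the inequality for the exponent -/
theorem solve {E : ℕ} {h C3 : ℝ} (hh : 1 ≤ h) (hC : 1 ≤ C3)
    (hE : (E : ℝ) ≤ C3 * h ^ 4 * (1 + log (E + 1 : ℝ)) ^ 4) :
    (E : ℝ) ≤ (6000 * C3) ^ 2 * h ^ 12 := by
  rcases Nat.eq_zero_or_pos E with h0 | h0
  · rw [h0]; simp; positivity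
  have hE1 : (1 : ℝ) ≤ E := by exact_mod_cast h0
  set y : ℝ := (E + 1 : ℝ) ^ (1 / 8 : ℝ) with hy
  have hy0 : 0 < y := by positivity
  have hlog : log (E + 1 : ℝ) = 8 * log y := by
    rw [hy, log_rpow (by positivity)]
    ring
  have hly : log y ≤ y - 1 := log_le_sub_one_of_pos hy0
  have hy1 : 1 ≤ y := one_le_rpow (by linarith) (by norm_num)
  have h1 : 1 + log (E + 1 : ℝ) ≤ 8 * y := by rw [hlog]; linarith
  have hl0 : 0 ≤ log (E + 1 : ℝ) := log_nonneg (by linarith)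
  have h2 : (1 + log (E + 1 : ℝ)) ^ 4 ≤ 4096 * y ^ 4 := by
    calc (1 + log (E + 1 : ℝ)) ^ 4 ≤ (8 * y) ^ 4 := by gcongr
      _ = 4096 * y ^ 4 := by ring
  have hy4 : (y ^ 4) ^ 2 = E + 1 := by
    rw [hy, ← rpow_natCast, ← rpow_natCast, ← rpow_mul (by positivity), ← rpow_mul (by positivity)]
    norm_num
  set z : ℝ := y ^ 4 with hz
  have hz0 : 0 < z := by positivity
  have hz1 : 1 ≤ z := one_le_pow₀ hy1
  have h3 : (E : ℝ) ≤ C3 * h ^ 4 * (4096 * z) := by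
    refine hE.trans ?_
    gcongr
  have hEz : (E : ℝ) = z ^ 2 - 1 := by linarith
  have h4 : z ^ 2 ≤ 2 * (4096 * C3 * h ^ 4 * z) := by
    have : z ^ 2 ≤ 2 * E := by
      have : (1 : ℝ) ≤ z ^ 2 - 1 := by linarith
      nlinarith
    nlinarith
  have h5 : z ≤ 8192 * C3 * h ^ 4 := by
    have : z * z ≤ z * (8192 * C3 * h ^ 4) := by nlinarith
    exact le_of_mul_le_mul_left this hz0
  -- a sharper constant is not needed
  have h6 : (E : ℝ) ≤ C3 * h ^ 4 * (4096 * (8192 * C3 * h ^ 4)) := by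
    refine h3.trans ?_
    gcongr
  have h7 : h ^ 8 ≤ h ^ 12 := pow_le_pow_right₀ hh (by norm_num)
  calc (E : ℝ) ≤ C3 * h ^ 4 * (4096 * (8192 * C3 * h ^ 4)) := h6
    _ = 33554432 * C3 ^ 2 * h ^ 8 := by ring
    _ ≤ 33554432 * C3 ^ 2 * h ^ 12 := by gcongr
    _ ≤ (6000 * C3) ^ 2 * h ^ 12 := by
      have : 0 ≤ C3 ^ 2 * h ^ 12 := by positivity
      nlinarith

/-- Block EXP. -/
theorem stmt_Exp (hArch : MP_2738db_nt_T.Stmt_Arch) : MP_2738db_nt_T.Stmt_Exp := by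
  obtain ⟨C, hC1, hC⟩ := hArch
  refine ⟨(6000 * (2 * 10 ^ 9 + 4 * C)) ^ 2, ?_⟩
  intro N a b c m n k hN ha1 haN hb1 hbN hc1 hcN hab hbc hac hm hn hk ham hbn heq
  have hh := one_le_log hN
  set E := max m (max n k) with hEdef
  have hmE : m ≤ E := le_max_left _ _
  have hnE : n ≤ E := (le_max_left _ _).trans (le_max_right _ _)
  have hkE : k ≤ E := (le_max_right _ _).trans (le_max_right _ _)
  have hlE : 0 ≤ log (E + 1 : ℝ) := log_nonneg (by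
    have : (0 : ℝ) ≤ E := by positivity
    linarith)
  have hc2 : 2 ≤ c := by
    rcases Nat.lt_or_ge c 2 with h | h
    · have : c = 1 := by omega
      rw [this, one_pow] at heq
      have h1 : 0 < a ^ m := by positivity
      have h2 : 0 < b ^ n := by positivity
      omega
    · exact h
  have hfin : (m : ℝ) ≤ (2 * 10 ^ 9 + 4 * C) * (log N) ^ 4 * (1 + log (E + 1 : ℝ)) ^ 4 ∧
      (n : ℝ) ≤ (2 * 10 ^ 9 + 4 * C) * (log N) ^ 4 * (1 + log (E + 1 : ℝ)) ^ 4 ∧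
      (k : ℝ) ≤ (2 * 10 ^ 9 + 4 * C) * (log N) ^ 4 * (1 + log (E + 1 : ℝ)) ^ 4 := by
    rcases Nat.even_or_odd a with hae | hao
    · have hbo : Odd b := by
        rw [← Nat.not_even_iff_odd]
        intro hbe
        have := Nat.dvd_gcd hae.two_dvd hbe.two_dvd
        rw [hab] at this
        omega
      have hco : Odd c := by
        rw [← Nat.not_even_iff_odd]
        intro hce
        have := Nat.dvd_gcd hae.two_dvd hce.two_dvd
        rw [hac] at this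
        omega
      have ha2 : 2 ≤ a := Nat.le_of_dvd (by omega) hae.two_dvd
      exact caseA hC1 hC hN ha2 haN hb1 hbN hc2 hcN hbc hm hn hk hbn heq hnE hkE le_rfl hae hbo hco
    · rcases Nat.even_or_odd b with hbe | hbo
      · have hco : Odd c := by
          rw [← Nat.not_even_iff_odd]
          intro hce
          have := Nat.dvd_gcd hbe.two_dvd hce.two_dvd
          rw [hbc] at this
          omega
        have hb2 : 2 ≤ b := Nat.le_of_dvd (by omega) hbe.two_dvd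
        have := caseA hC1 hC (a := b) (b := a) (m := n) (n := m) hN hb2 hbN ha1 haN hc2 hcN hac hn hm
          hk ham (by rw [add_comm]; exact heq) hmE hkE le_rfl hbe hao hco
        exact ⟨this.2.1, this.1, this.2.2⟩
      · have hce : Even c := by
          rw [← Nat.not_odd_iff_even]
          intro hco
          have h1 : Even (a ^ m + b ^ n) := (hao.pow).add_odd (hbo.pow)
          rw [heq] at h1
          exact (Nat.not_even_iff_odd.mpr hco.pow) h1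
        have h1 := caseC (lam := 1 + log (E + 1 : ℝ)) hN ha1 haN hb1 hbN hc2 hcN hab hm hn hk ham hbn
          heq hmE hnE le_rfl hao hbo hce
        have h2 : 2 * log N * (3 * 10 ^ 8 * (log N) ^ 2 * (1 + log (E + 1 : ℝ)) ^ 2) ≤
            (2 * 10 ^ 9 + 4 * C) * (log N) ^ 4 * (1 + log (E + 1 : ℝ)) ^ 4 := by
          have e1 : (log (N : ℝ)) ^ 3 ≤ (log N) ^ 4 := pow_le_pow_right₀ hh (by norm_num)
          have e2 : (1 + log (E + 1 : ℝ)) ^ 2 ≤ (1 + log (E + 1 : ℝ)) ^ 4 :=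
            pow_le_pow_right₀ (by linarith) (by norm_num)
          calc 2 * log N * (3 * 10 ^ 8 * (log N) ^ 2 * (1 + log (E + 1 : ℝ)) ^ 2)
              = (6 * 10 ^ 8) * ((log N) ^ 3 * (1 + log (E + 1 : ℝ)) ^ 2) := by ring
            _ ≤ (6 * 10 ^ 8) * ((log N) ^ 4 * (1 + log (E + 1 : ℝ)) ^ 4) := by gcongr
            _ ≤ (2 * 10 ^ 9 + 4 * C) * (log N) ^ 4 * (1 + log (E + 1 : ℝ)) ^ 4 := by
              have : 0 ≤ (log (N : ℝ)) ^ 4 * (1 + log (E + 1 : ℝ)) ^ 4 := by positivity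
              nlinarith
        exact ⟨h1.1.trans h2, h1.2.1.trans h2, h1.2.2.trans h2⟩
  have hE : (E : ℝ) ≤ (2 * 10 ^ 9 + 4 * C) * (log N) ^ 4 * (1 + log (E + 1 : ℝ)) ^ 4 := by
    have hcase : E = m ∨ E = n ∨ E = k := by
      rcases max_choice m (max n k) with h | h
      · exact Or.inl h
      · rcases max_choice n k with h' | h'
        · exact Or.inr (Or.inl (h.trans h'))
        · exact Or.inr (Or.inr (h.trans h'))
    clear_value E
    rcases hcase with h | h | h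
    · have e : (E : ℝ) = m := by rw [h]
      rw [e] at hfin ⊢
      exact hfin.1
    · have e : (E : ℝ) = n := by rw [h]
      rw [e] at hfin ⊢
      exact hfin.2.1
    · have e : (E : ℝ) = k := by rw [h]
      rw [e] at hfin ⊢
      exact hfin.2.2
  have hs := solve hh (by linarith) hE
  have f1 : (m : ℝ) ≤ E := by exact_mod_cast hmE
  have f2 : (n : ℝ) ≤ E := by exact_mod_cast hnE
  have f3 : (k : ℝ) ≤ E := by exact_mod_cast hkE
  exact ⟨f1.trans hs, f2.trans hs, f3.trans hs⟩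

end Pool.Agent.Work.MP_2738db_nt_T_helper42
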